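import Pool.Graph.R_seed8.Results.MP_6b8b27_co.HamPathFamilies

/-!
# Families of graphs whose pairwise unions have no leaf

`n.choose 2` is the largest size of a family of graphs on `n` vertices with pairwise good unions,
for every class of graphs between the Hamiltonian paths and the graphs with at least two leaves (for
instance: all spanning trees) and for every notion of good between containing a Hamiltonian cycle and
having no leaf.
-/

set_option autoImplicit false

namespace Pool.Agent.Results.MP_6b8b27_co.TreesAndLeaves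

open SimpleGraph

/-- `v` is a leaf of `G`: it has exactly one neighbour. -/
def Leaf {n : ℕ} (G : SimpleGraph (Fin n)) (v : Fin n) : Prop := ∃! u, G.Adj v u

/-- `m` is the largest size of a family of graphs of the class `C` on `n` vertices such that the union
of any two different members has the property `P`. -/
def Largest (n : ℕ) (C P : SimpleGraph (Fin n) → Prop) (m : ℕ) : Prop :=
  IsGreatest {m : ℕ | ∃ F : Finset (SimpleGraph (Fin n)), F.card = m ∧ (∀ G ∈ F, C G) ∧
    ∀ G ∈ F, ∀ H ∈ F, G ≠ H → P (G ⊔ H)} m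

theorem upper {n : ℕ} (t : ℕ) (F : Finset (SimpleGraph (Fin n)))
    (h1 : ∀ G ∈ F, t ≤ {v | Leaf G v}.ncard)
    (h2 : ∀ G ∈ F, ∀ H ∈ F, G ≠ H → ∀ v, ¬ Leaf (G ⊔ H) v) : t * F.card ≤ n * (n - 1) := by
  classical
  let D : SimpleGraph (Fin n) → Finset (Fin n × Fin n) := fun G =>
    Finset.univ.filter fun p => ∀ x, G.Adj p.1 x ↔ x = p.2
  have hD : ∀ G ∈ F, t ≤ (D G).card := by
    intro G hG
    refine (h1 G hG).trans ?_
    rw [← Set.ncard_coe_finset (D G)]
    have : ∀ v : Fin n, Leaf G v → ∃ u, (v, u) ∈ (D G : Set (Fin n × Fin n)) := by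
      rintro v ⟨u, hu, hu2⟩
      refine ⟨u, ?_⟩
      simp only [D, Finset.coe_filter, Finset.mem_univ, true_and, Set.mem_setOf_eq]
      intro x
      exact ⟨fun h => hu2 x h, fun h => h ▸ hu⟩
    choose f hf using this
    refine Set.ncard_le_ncard_of_injOn (fun v => if h : Leaf G v then (v, f v h) else (v, v)) ?_ ?_
      (Finset.finite_toSet _)
    · intro v hv
      have hv' : Leaf G v := hv
      simp only [dif_pos hv']
      exact hf v hv'
    · intro v hv w hw h
      have hv' : Leaf G v := hv
      have hw' : Leaf G w := hw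
      simp only [dif_pos hv', dif_pos hw', Prod.mk.injEq] at h
      exact h.1
  have hdisj : (F : Set (SimpleGraph (Fin n))).PairwiseDisjoint D := by
    intro G hG H hH hne
    refine Finset.disjoint_left.2 ?_
    intro p hp hq
    simp only [D, Finset.mem_filter, Finset.mem_univ, true_and] at hp hq
    refine h2 G hG H hH hne p.1 ⟨p.2, ?_, ?_⟩
    · exact Or.inl ((hp p.2).2 rfl)
    · intro x hx
      have hx' : (G ⊔ H).Adj p.1 x := hx
      rw [sup_adj, hp, hq, or_self] at hx'
      exact hx'
  have hsub : F.biUnion D ⊆ (Finset.univ : Finset (Fin n)).offDiag := by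
    intro p hp
    obtain ⟨G, hG, hpG⟩ := Finset.mem_biUnion.1 hp
    simp only [D, Finset.mem_filter, Finset.mem_univ, true_and] at hpG
    rw [Finset.mem_offDiag]
    refine ⟨Finset.mem_univ _, Finset.mem_univ _, ?_⟩
    exact ((hpG p.2).2 rfl).ne
  have hcard := Finset.card_le_card hsub
  rw [Finset.card_biUnion hdisj, Finset.offDiag_card, Finset.card_univ, Fintype.card_fin] at hcard
  have hsum : F.card * t ≤ ∑ G ∈ F, (D G).card := by
    rw [← smul_eq_mul]
    exact Finset.card_nsmul_le_sum _ _ _ hD
  calc t * F.card = F.card * t := mul_comm _ _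
    _ ≤ n * n - n := hsum.trans hcard
    _ = n * (n - 1) := by rw [Nat.mul_sub_one]

theorem no_leaf_of_cycle {n : ℕ} (hn : 3 ≤ n) (G : SimpleGraph (Fin n))
    (h : (cycleGraph n).IsContained G) (v : Fin n) : ¬ Leaf G v := by
  rintro ⟨u, hu, hu2⟩
  obtain ⟨a, b, hab, ha, hb⟩ := HamPathFamilies.two_nbrs hn h v
  exact hab ((hu2 a ha).trans (hu2 b hb).symm)

theorem pathGraph_isTree {n : ℕ} (hn : 1 ≤ n) : (pathGraph n).IsTree := by
  obtain ⟨m, rfl⟩ : ∃ m, n = m + 1 := ⟨n - 1, by omega⟩
  rw [isTree_iff_connected_and_card]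
  have hc := pathGraph_connected m
  refine ⟨hc, le_antisymm ?_ hc.card_vert_le_card_edgeSet_add_one⟩
  rw [Nat.card_eq_fintype_card (α := Fin (m + 1)), Fintype.card_fin]
  refine Nat.add_le_add_right ?_ 1
  let f : Fin m → (pathGraph (m + 1)).edgeSet := fun i =>
    ⟨s(⟨i, by omega⟩, ⟨i + 1, by omega⟩), by rw [mem_edgeSet, pathGraph_adj]; simp⟩
  have hf : Function.Surjective f := by
    rintro ⟨e, he⟩
    induction e using Sym2.ind with
    | _ a b =>
      rw [mem_edgeSet, pathGraph_adj] at he
      rcases he with he | he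
      · refine ⟨⟨a, by omega⟩, ?_⟩
        apply Subtype.ext
        simp only [f]
        congr 2
      · refine ⟨⟨b, by omega⟩, ?_⟩
        apply Subtype.ext
        simp only [f]
        rw [Sym2.eq_swap]
        congr 2
  have := Nat.card_le_card_of_surjective f hf
  rwa [Nat.card_eq_fintype_card (α := Fin m), Fintype.card_fin] at this

theorem tree_leaves {n : ℕ} (hn : 2 ≤ n) (G : SimpleGraph (Fin n)) (h : G.IsTree) :
    2 ≤ {v | Leaf G v}.ncard := by
  classical
  haveI : Nontrivial (Fin n) := Fin.nontrivial_iff_two_le.2 hn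
  obtain ⟨u, v, huv, hu, hv⟩ := h.exists_ne_and_degree_eq_one
  rw [degree_eq_one_iff_existsUnique_adj] at hu hv
  have h1 : ({u, v} : Set (Fin n)) ⊆ {v | Leaf G v} := by
    rintro x (rfl | rfl)
    · exact hu
    · exact hv
  rw [← Set.ncard_pair huv]
  exact Set.ncard_le_ncard h1 (Set.toFinite _)

/-- Let `n ≥ 3`.
(1) Let `C` be a class of graphs on `n` vertices which contains all Hamiltonian paths and whose members
have at least two leaves each, and `P` a property of graphs which holds for the graphs containing a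
Hamiltonian cycle and fails for the graphs with a leaf. Then `n.choose 2` is the largest size of a
family of members of `C` such that the union of any two different members has the property `P`.
(2) In particular this holds for the class of all spanning trees.
(3) If every member of a family has at least `t` leaves and no union of two different members has a
leaf, then the family has at most `n (n - 1) / t` members. -/
theorem result (n : ℕ) (hn : 3 ≤ n) :
    (∀ C P : SimpleGraph (Fin n) → Prop,
      (∀ G, Nonempty (G ≃g pathGraph n) → C G) → (∀ G, C G → 2 ≤ {v | Leaf G v}.ncard) →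
      (∀ G, (cycleGraph n).IsContained G → P G) → (∀ G, P G → ∀ v, ¬ Leaf G v) →
      Largest n C P (n.choose 2)) ∧
    (∀ P : SimpleGraph (Fin n) → Prop,
      (∀ G, (cycleGraph n).IsContained G → P G) → (∀ G, P G → ∀ v, ¬ Leaf G v) →
      Largest n IsTree P (n.choose 2)) ∧
    (∀ (t : ℕ) (F : Finset (SimpleGraph (Fin n))), (∀ G ∈ F, t ≤ {v | Leaf G v}.ncard) →
      (∀ G ∈ F, ∀ H ∈ F, G ≠ H → ∀ v, ¬ Leaf (G ⊔ H) v) → t * F.card ≤ n * (n - 1)) := by
  have main : ∀ C P : SimpleGraph (Fin n) → Prop,
      (∀ G, Nonempty (G ≃g pathGraph n) → C G) → (∀ G, C G → 2 ≤ {v | Leaf G v}.ncard) →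
      (∀ G, (cycleGraph n).IsContained G → P G) → (∀ G, P G → ∀ v, ¬ Leaf G v) →
      Largest n C P (n.choose 2) := by
    intro C P hC1 hC2 hP1 hP2
    constructor
    · obtain ⟨F, h1, h2, h3⟩ := HamPathFamilies.lower hn
      exact ⟨F, h1, fun G hG => hC1 G (h2 G hG), fun G hG H hH hne => hP1 _ (h3 G hG H hH hne)⟩
    · rintro m ⟨F, rfl, h1, h2⟩
      have := upper 2 F (fun G hG => hC2 G (h1 G hG))
        fun G hG H hH hne v => hP2 _ (h2 G hG H hH hne) v
      rw [Nat.choose_two_right]
      omega
  refine ⟨main, fun P hP1 hP2 => main IsTree P ?_ (tree_leaves (by omega)) hP1 hP2,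
    fun t F h1 h2 => upper t F h1 h2⟩
  rintro G ⟨e⟩
  exact e.symm.isTree_iff.1 (pathGraph_isTree (by omega))

end Pool.Agent.Results.MP_6b8b27_co.TreesAndLeaves
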